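import Pool.Agent.Helper62.FO.Alg
import Pool.Agent.Helper33.FO.LemmaA

/-!
# Order of flat outputs: one step of the descent (MP_12f184_an, piece FO-A2)
-/

namespace FlatOrder

set_option linter.unusedSectionVars false

variable {F : Type*} [Field F] [CharZero F]

namespace Desc

section der
variable (d : Derivation ℤ F F)

theorem dmul (a b : F) : d (a * b) = a * d b + b * d a := by
  rw [d.leibniz, smul_eq_mul, smul_eq_mul]

theorem dint (n : ℤ) : d (n : F) = 0 := by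
  simp

theorem dintmul (n : ℤ) (a : F) : d ((n : F) * a) = n * d a := by
  rw [dmul, dint]
  ring

theorem dsq (a : F) : d (a ^ 2) = 2 * a * d a := by
  rw [sq, dmul]
  ring

theorem ddiv (a : F) {b : F} (hb : b ≠ 0) : d (a / b) = (d a - a / b * d b) / b := by
  have h : d (a / b * b) = d a := by rw [div_mul_cancel₀ a hb]
  rw [dmul] at h
  field_simp at h ⊢
  linear_combination h

end der

/-- the facts at level `s` -/
structure Lev (J : JetDer F) (c : ℤ) (s : ℕ) (h : LData J c (s + 1)) : Prop where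
  q0 : J.D h.z ≠ 0
  qs : J.δ (s + 1) (J.D h.z) = 0
  ls : J.δ (s + 1) h.l = -c * J.D h.z * J.δ (s + 1) h.k
  pp : h.p s = (1 - c) * J.D h.z * J.δ (s + 1) h.k
  ww : J.δ (s + 1) (J.δ (s + 1) h.k) = 0
  b : J.δ s (J.D h.z) = -c * J.D h.z ^ 2 * J.δ (s + 1) h.k

theorem q_ne {J : JetDer F} {c : ℤ} {s : ℕ} (h : LData J c s) : J.D h.z ≠ 0 := by
  intro h0
  apply h.ηq
  rw [h0, map_zero]

theorem qs_zero {J : JetDer F} {c : ℤ} {s : ℕ} (h : LData J c s) (hc : c ≠ -1 ∧ c ≠ 0 ∧ c ≠ 1) :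
    J.δ s (J.D h.z) = 0 := by
  have := lemmaA J hc h.hv h.hE h.hp0 h.hp h.hsym h.hps h.hz h.hk h.hl (q_ne h)
  exact (mul_eq_zero.1 this).resolve_right h.hw

theorem ls_eq {J : JetDer F} {c : ℤ} {s : ℕ} (h : LData J c s) :
    J.δ s h.l = -c * J.D h.z * J.δ s h.k := by
  have e := congrArg (J.δ (s + 1)) h.hE
  rw [J.δ_D_succ, h.hl _ (Nat.lt_succ_self s), map_zero, zero_add, map_sub, dsq, h.hl _ (Nat.lt_succ_self s),
    mul_assoc (c : F), dintmul, dmul, J.δ_D_succ, J.δ_D_succ, h.hz _ (Nat.le_succ s), h.hz _ le_rfl,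
    h.hk _ (Nat.lt_succ_self s), map_zero] at e
  rw [e]
  ring

theorem s_pos {J : JetDer F} {c : ℤ} {s : ℕ} (h : LData J c s) (hc : c ≠ -1 ∧ c ≠ 0 ∧ c ≠ 1) :
    ∃ s', s = s' + 1 := by
  rcases s with _ | s
  · exfalso
    have e := h.hp0
    rw [h.hps 0 le_rfl, map_zero, h.hv, map_add, dmul, ls_eq h, qs_zero h hc] at e
    have h1 : ((1 : F) - c) ≠ 0 := by
      intro h1
      have : (c : F) = ((1 : ℤ) : F) := by push_cast; linear_combination -h1
      exact hc.2.2 (by exact_mod_cast this)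
    have : ((1 : F) - c) * J.D h.z * J.δ 0 h.k = 0 := by linear_combination e
    exact mul_ne_zero (mul_ne_zero h1 (q_ne h)) h.hw this
  · exact ⟨s, rfl⟩

theorem lev {J : JetDer F} {c : ℤ} {s : ℕ} (h : LData J c (s + 1))
    (hc : c ≠ -1 ∧ c ≠ 0 ∧ c ≠ 1) : Lev J c s h := by
  have q0 := q_ne h
  have qs := qs_zero h hc
  have ls := ls_eq h
  have h1 : ((1 : F) - c) ≠ 0 := by
    intro h1
    have : (c : F) = ((1 : ℤ) : F) := by push_cast; linear_combination -h1
    exact hc.2.2 (by exact_mod_cast this)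
  have hc0 : (c : F) ≠ 0 := by exact_mod_cast hc.2.1
  have pp : h.p s = (1 - c) * J.D h.z * J.δ (s + 1) h.k := by
    have e := h.hp s
    rw [h.hps _ le_rfl, map_zero, zero_add, h.hv, map_add, dmul, ls, qs] at e
    rw [← e]
    ring
  have ww : J.δ (s + 1) (J.δ (s + 1) h.k) = 0 := by
    have e := h.hsym (s + 1) s
    rw [h.hps _ le_rfl, map_zero, pp] at e
    have h2 : J.δ (s + 1) ((1 - (c : F)) * J.D h.z * J.δ (s + 1) h.k) =
        (1 - c) * J.D h.z * J.δ (s + 1) (J.δ (s + 1) h.k) := by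
      rw [dmul, dmul, qs, map_sub, dint]
      simp
    rw [h2] at e
    exact (mul_eq_zero.1 e).resolve_left (mul_ne_zero h1 q0)
  refine ⟨q0, qs, ls, pp, ww, ?_⟩
  have e := congrArg (J.δ (s + 1)) h.hE
  rw [J.δ_D_succ, map_sub, dsq, mul_assoc (c : F) (J.D h.z), dintmul, dmul, J.δ_D_succ _ h.k, qs, ls] at e
  have e2 : J.δ s h.l = c * J.D (J.D h.z) * J.δ (s + 1) h.k
      - 2 * c * h.l * J.D h.z * J.δ (s + 1) h.k - c * J.D h.z * J.δ s h.k := by
    have h3 : J.D (-(c : F) * J.D h.z * J.δ (s + 1) h.k) =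
        -c * (J.D h.z * J.D (J.δ (s + 1) h.k) + J.δ (s + 1) h.k * J.D (J.D h.z)) := by
      rw [mul_assoc, neg_mul, map_neg, dintmul, dmul]
      ring
    rw [h3] at e
    linear_combination e
  have e3 := congrArg (J.δ (s + 1)) e2
  have h4 : J.δ (s + 1) (J.δ s h.l) = -c * (J.D h.z * J.δ s (J.δ (s + 1) h.k)
      + J.δ (s + 1) h.k * J.δ s (J.D h.z)) := by
    rw [J.δ_comm, ls, mul_assoc, neg_mul, map_neg, dintmul, dmul]
    ring
  have h5 : J.δ (s + 1) (c * J.D (J.D h.z) * J.δ (s + 1) h.k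
      - 2 * c * h.l * J.D h.z * J.δ (s + 1) h.k - c * J.D h.z * J.δ s h.k) =
      c * J.δ s (J.D h.z) * J.δ (s + 1) h.k
      - 2 * c * (-c * J.D h.z * J.δ (s + 1) h.k) * J.D h.z * J.δ (s + 1) h.k
      - c * J.D h.z * J.δ s (J.δ (s + 1) h.k) := by
    have h6 : J.δ (s + 1) ((2 : F) * c) = 0 := by
      have := dint (J.δ (s + 1)) (2 * c)
      push_cast at this
      exact this
    rw [map_sub, map_sub, dmul _ ((c : F) * J.D (J.D h.z)), dmul _ (c : F) (J.D (J.D h.z)), dint, ww,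
      dmul _ ((2 : F) * c * h.l * J.D h.z), ww, dmul _ ((2 : F) * c * h.l), qs,
      dmul _ ((2 : F) * c), h6, ls, dmul _ ((c : F) * J.D h.z), dmul _ (c : F) (J.D h.z), dint, qs,
      J.δ_D_succ s (J.D h.z), qs, map_zero, J.δ_comm (s + 1) s h.k]
    ring
  rw [h4, h5] at e3
  have e4 : (c : F) * J.δ (s + 1) h.k * (J.δ s (J.D h.z) + c * J.D h.z ^ 2 * J.δ (s + 1) h.k) = 0 := by
    have : (2 : F) * (c * J.δ (s + 1) h.k * (J.δ s (J.D h.z) + c * J.D h.z ^ 2 * J.δ (s + 1) h.k)) = 0 := by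
      linear_combination -e3
    exact (mul_eq_zero.1 this).resolve_left two_ne_zero
  have e5 := (mul_eq_zero.1 e4).resolve_left (mul_ne_zero hc0 h.hw)
  linear_combination e5

/-- the log-derivative relation -/
theorem g_rel (J : JetDer F) {q : F} (hq : q ≠ 0) (j : ℕ) :
    J.δ (j + 1) (J.D q / q) = J.D (J.δ (j + 1) q / q) + J.δ j q / q := by
  rw [ddiv _ _ hq, ddiv _ _ hq, J.δ_D_succ]
  ring

theorem g_rel0 (J : JetDer F) {q : F} (hq : q ≠ 0) :
    J.δ 0 (J.D q / q) = J.D (J.δ 0 q / q) := by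
  rw [ddiv _ _ hq, ddiv _ _ hq, J.δ_D_zero]
  ring

theorem lam_sym (J : JetDer F) {q : F} (hq : q ≠ 0) (i j : ℕ) :
    J.δ i (J.δ j q / q) = J.δ j (J.δ i q / q) := by
  rw [ddiv _ _ hq, ddiv _ _ hq, J.δ_comm i j]
  ring

end Desc

open Desc

/-- one step of the descent -/
theorem lstep {J : JetDer F} {c : ℤ} {s : ℕ} (h : LData J c s)
    (hc : c ≠ -1 ∧ c ≠ 0 ∧ c ≠ 1 ∧ c ≠ 2 ∧ c ≠ 3) :
    ∃ s', s = s' + 2 ∧ Nonempty (LData J (c - 2) s') := by
  obtain ⟨c1, c2, c3, c4, c5⟩ := hc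
  obtain ⟨s, rfl⟩ := s_pos h ⟨c1, c2, c3⟩
  have L := lev h ⟨c1, c2, c3⟩
  have q0 := L.q0
  set q := J.D h.z with hqdef
  set w := J.δ (s + 1) h.k with hw
  have hw0 : w ≠ 0 := h.hw
  have hc0 : (c : F) ≠ 0 := by exact_mod_cast c2
  have hc4 : (2 : F) - c ≠ 0 := by
    intro h1
    have : (c : F) = ((2 : ℤ) : F) := by push_cast; linear_combination -h1
    exact c4 (by exact_mod_cast this)
  have d2 : ∀ d : Derivation ℤ F F, d ((2 : F) - c) = 0 := by
    intro d
    have := dint d (2 - c)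
    push_cast at this
    exact this
  have d1 : ∀ d : Derivation ℤ F F, d ((1 : F) - c) = 0 := by
    intro d
    have := dint d (1 - c)
    push_cast at this
    exact this
  -- division by the constant `2 - c`
  have dd : ∀ (d : Derivation ℤ F F) (x : F), d (x / (2 - c)) = d x / (2 - c) := by
    intro d x
    rw [ddiv _ _ hc4, d2]
    ring
  have dm : ∀ (d : Derivation ℤ F F) (x : F), d ((1 - c) * x) = (1 - c) * d x := by
    intro d x
    rw [dmul, d1]
    ring
  obtain ⟨g, hg⟩ : ∃ g, g = J.D q / q := ⟨_, rfl⟩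
  obtain ⟨V, hV⟩ : ∃ V, V = (c * h.v + (1 - c) * g) / (2 - c) := ⟨_, rfl⟩
  obtain ⟨P, hP⟩ : ∃ P : ℕ → F, P = fun j => (c * h.p j + (1 - c) * (J.δ j q / q)) / (2 - c) := ⟨_, rfl⟩
  obtain ⟨l', hl'⟩ : ∃ l', l' = g - h.l := ⟨_, rfl⟩
  obtain ⟨k', hk'⟩ : ∃ k', k' = (V - l') / q := ⟨_, rfl⟩
  have hVk : V = l' + k' * q := by
    rw [hk']
    field_simp
    ring
  have hk2 : k' = (2 * h.l / q + c * h.k - g / q) / (2 - c) := by
    rw [hk', hV, hl', h.hv, ← hqdef]
    field_simp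
    ring
  -- the new equation
  have hE' : J.D l' = l' ^ 2 - ((2 - c : ℤ) : F) * q * J.D k' := by
    have e := h.hE
    rw [← hqdef] at e
    have e1 : J.D k' = (2 * ((J.D h.l - h.l / q * J.D q) / q) + c * J.D h.k
        - (J.D g - g / q * J.D q) / q) / (2 - c) := by
      rw [hk2, dd, map_sub, map_add, mul_div_assoc, dintmul, ddiv _ _ q0]
      have : J.D (2 * (h.l / q)) = 2 * ((J.D h.l - h.l / q * J.D q) / q) := by
        have := dintmul J.D 2 (h.l / q)
        push_cast at this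
        rw [this, ddiv _ _ q0]
      rw [this]
    have e2 : J.D q = g * q := by
      rw [hg]
      field_simp
    rw [e1, e2, hl', map_sub]
    push_cast
    field_simp
    linear_combination e
  have hP0 : J.δ 0 V = J.D (P 0) := by
    rw [hV, hP]
    simp only []
    rw [dd, dd, map_add, map_add, dintmul, dintmul, dm, dm, h.hp0, hg, g_rel0 J q0]
  have hPs : ∀ j, J.δ (j + 1) V = J.D (P (j + 1)) + P j := by
    intro j
    rw [hV, hP]
    simp only []
    rw [dd, dd, map_add, map_add, dintmul, dintmul, dm, dm, h.hp, hg, g_rel J q0]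
    field_simp
    ring
  have hPsym : ∀ i j, J.δ i (P j) = J.δ j (P i) := by
    intro i j
    rw [hP]
    simp only []
    rw [dd, dd, map_add, map_add, dintmul, dintmul, dm, dm, h.hsym i j, lam_sym J q0 i j]
  -- vanishing of `δ_j q`
  have hqj : ∀ j, s + 1 ≤ j → J.δ j q = 0 := by
    intro j hj
    rcases Nat.eq_or_lt_of_le hj with rfl | hj
    · exact L.qs
    · obtain ⟨i, rfl⟩ : ∃ i, j = i + 1 := ⟨j - 1, by omega⟩
      rw [hqdef, J.δ_D_succ, h.hz _ (by omega), h.hz _ (by omega), map_zero, add_zero]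
  have hzs : ∀ j, s ≤ j → J.δ j h.z = 0 := by
    intro j hj
    rcases Nat.eq_or_lt_of_le hj with rfl | hj
    · have e := L.qs
      rw [J.δ_D_succ, h.hz _ le_rfl, map_zero, zero_add] at e
      exact e
    · exact h.hz _ hj
  have hb : J.δ s q = -c * q ^ 2 * w := L.b
  have hb0 : J.δ s q ≠ 0 := by
    rw [hb]
    exact mul_ne_zero (mul_ne_zero (neg_ne_zero.2 hc0) (pow_ne_zero _ q0)) hw0
  have hPz : ∀ j, s ≤ j → P j = 0 := by
    intro j hj
    rw [hP]
    simp only []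
    rcases Nat.eq_or_lt_of_le hj with rfl | hj
    · rw [hb, L.pp]
      field_simp
      ring
    · rw [h.hps _ hj, hqj _ hj]
      simp
  have hgj : ∀ j, s + 1 < j → J.δ j g = 0 := by
    intro j hj
    obtain ⟨i, rfl⟩ : ∃ i, j = i + 1 := ⟨j - 1, by omega⟩
    rw [hg, g_rel J q0, hqj _ (by omega), hqj _ (by omega)]
    simp
  have hgs : J.δ (s + 1) g = -c * q * w := by
    rw [hg, g_rel J q0, hqj _ le_rfl, hb]
    simp
    field_simp
  have hlj : ∀ j, s < j → J.δ j l' = 0 := by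
    intro j hj
    rw [hl', map_sub]
    rcases Nat.eq_or_lt_of_le hj with rfl | hj
    · rw [hgs, L.ls]
      ring
    · rw [hgj _ hj, h.hl _ hj, sub_zero]
  have hVj : ∀ j, s < j → J.δ j V = 0 := by
    intro j hj
    obtain ⟨i, rfl⟩ : ∃ i, j = i + 1 := ⟨j - 1, by omega⟩
    rw [hPs, hPz _ (by omega), hPz _ (by omega), map_zero, add_zero]
  have hkj : ∀ j, s < j → J.δ j k' = 0 := by
    intro j hj
    rw [hk', ddiv _ _ q0, map_sub, hVj _ hj, hlj _ hj, hqj _ hj]
    simp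
  -- lemma A at level `s`
  have hc' : (2 - c) ≠ -1 ∧ (2 - c) ≠ 0 ∧ (2 - c) ≠ 1 := ⟨by omega, by omega, by omega⟩
  have hA := lemmaA J hc' (s := s) (z := h.z) (k := k') (l := l') (v := V) (p := P)
    (by rw [← hqdef]; exact hVk) (by rw [← hqdef]; exact hE') hP0 hPs hPsym hPz hzs hkj hlj
    (by rw [← hqdef]; exact q0)
  rw [← hqdef] at hA
  have hks : J.δ s k' = 0 := (mul_eq_zero.1 hA).resolve_left hb0
  have hls : J.δ s l' = 0 := by
    have e := congrArg (J.δ (s + 1)) hE'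
    rw [J.δ_D_succ, hlj (s + 1) (by omega), map_zero, zero_add, map_sub, dsq, hlj (s + 1) (by omega),
      mul_assoc ((2 - c : ℤ) : F), dintmul, dmul, hqj _ le_rfl, J.δ_D_succ, hkj (s + 1) (by omega), hks,
      map_zero] at e
    rw [e]
    ring
  -- `s ≥ 1`
  rcases s with _ | m
  · exfalso
    apply hb0
    rw [hqdef, J.δ_D_zero, hzs 0 le_rfl, map_zero]
  have hb2 : J.δ m h.z = J.δ (m + 1) q := by
    rw [hqdef, J.δ_D_succ, hzs _ le_rfl, map_zero, zero_add]
  set b := J.δ (m + 1) q with hbdef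
  have hkj' : ∀ j, m < j → J.δ j k' = 0 := by
    intro j hj
    rcases Nat.eq_or_lt_of_le hj with rfl | hj
    · exact hks
    · exact hkj _ hj
  have hlj' : ∀ j, m < j → J.δ j l' = 0 := by
    intro j hj
    rcases Nat.eq_or_lt_of_le hj with rfl | hj
    · exact hls
    · exact hlj _ hj
  have hPm : P m = k' * b := by
    have e := hPs m
    rw [hPz _ le_rfl, map_zero, zero_add, hVk, map_add, hlj' _ (by omega), dmul, hkj' _ (by omega),
      ← hbdef] at e
    rw [← e]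
    ring
  have hbm : J.δ (m + 1) b = 0 := by
    rw [← hb2, J.δ_comm, hzs _ le_rfl, map_zero]
  have e1 : J.δ m l' = -((2 - c : ℤ) : F) * (b * J.D k' + q * J.δ m k') := by
    have e := congrArg (J.δ (m + 1)) hE'
    rw [J.δ_D_succ, hlj' (m + 1) (by omega), map_zero, zero_add, map_sub, dsq,
      hlj' (m + 1) (by omega), mul_assoc ((2 - c : ℤ) : F), dintmul, dmul, J.δ_D_succ,
      hkj' (m + 1) (by omega), map_zero, ← hbdef] at e
    rw [e]
    ring
  have hkm : J.δ m k' = 0 := by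
    have e := congrArg (J.δ (m + 1)) e1
    have e3 : -((2 - c : ℤ) : F) * (b * J.D k' + q * J.δ m k') =
        ((-(2 - c) : ℤ) : F) * (b * J.D k' + q * J.δ m k') := by push_cast; ring
    rw [J.δ_comm, hlj' (m + 1) (by omega), map_zero, e3, dintmul, map_add, dmul, dmul, hbm,
      J.δ_D_succ, J.δ_comm (m + 1) m k', hkj' (m + 1) (by omega), map_zero, ← hbdef, map_zero] at e
    have e4 : ((-(2 - c) : ℤ) : F) * 2 * b * J.δ m k' = 0 := by
      linear_combination -e
    have e5 : ((-(2 - c) : ℤ) : F) ≠ 0 := by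
      rw [Ne, Int.cast_eq_zero]
      omega
    exact (mul_eq_zero.1 e4).resolve_left (mul_ne_zero (mul_ne_zero e5 two_ne_zero) hb0)
  -- orders in `u`
  have hηq : ∀ j, h.t < j → J.η j q = 0 := h.ηq'
  have hηg : ∀ j, h.t ≤ j → J.η (j + 1) g = J.η j q / q := by
    intro j hj
    rw [hg, ddiv _ _ q0, J.η_D_succ, hηq (j + 1) (by omega), map_zero, zero_add]
    ring
  have hηk : ∀ j, h.t ≤ j → J.η (j + 1) k' = - (J.η j q / q) / q / (2 - c) := by
    intro j hj
    have h2 : J.η (j + 1) (2 * h.l / q) = 0 := by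
      rw [ddiv _ _ q0, hηq (j + 1) (by omega)]
      have := dintmul (J.η (j + 1)) 2 h.l
      push_cast at this
      rw [this, h.ηl (j + 1) (by omega)]
      simp
    have h3 : J.η (j + 1) (g / q) = J.η j q / q / q := by
      rw [ddiv _ _ q0, hηq (j + 1) (by omega), hηg j hj]
      ring
    rw [hk2, dd, map_sub, map_add, dintmul, h2, h3, h.ηk (j + 1) (by omega)]
    ring
  have hηk0 : J.η (h.t + 1) k' ≠ 0 := by
    rw [hηk _ le_rfl]
    exact div_ne_zero (div_ne_zero (neg_ne_zero.2 (div_ne_zero h.ηq q0)) q0) hc4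
  have hηkj : ∀ j, h.t + 1 < j → J.η j k' = 0 := by
    intro j hj
    obtain ⟨i, rfl⟩ : ∃ i, j = i + 1 := ⟨j - 1, by omega⟩
    rw [hηk _ (by omega), hηq i (by omega)]
    simp
  have hηlj : ∀ j, h.t + 1 < j → J.η j l' = 0 := by
    intro j hj
    obtain ⟨i, rfl⟩ : ∃ i, j = i + 1 := ⟨j - 1, by omega⟩
    rw [hl', map_sub, hηg _ (by omega), hηq i (by omega), h.ηl _ (by omega)]
    simp
  refine ⟨m, rfl, ⟨LData.mk k' (-h.z) l' (V - J.D (k' * h.z)) (fun j => P j - J.δ j (k' * h.z))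
    (h.t + 2) ?_ ?_ ?_ ?_ ?_ ?_ ?_ ?_ ?_ ?_ ?_ ?_ ?_ ?_ ?_⟩⟩
  · rw [dmul, ← hqdef, hVk]
    ring
  · rw [map_neg, ← hqdef, hE']
    push_cast
    ring
  · rw [map_sub, hP0, J.δ_D_zero]
    rw [map_sub]
  · intro j
    rw [map_sub, hPs, J.δ_D_succ]
    rw [map_sub]
    ring
  · intro i j
    rw [map_sub, map_sub, hPsym i j, J.δ_comm i j]
  · intro j hj
    rcases Nat.eq_or_lt_of_le hj with rfl | hj
    · rw [hPm, dmul, hkm, hb2]
      ring
    · rw [hPz _ hj, dmul, hkj' _ hj, hzs _ hj]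
      ring
  · intro j hj
    rcases Nat.eq_or_lt_of_le hj with rfl | hj
    · exact hkm
    · exact hkj' _ hj
  · intro j hj
    rw [map_neg, hzs _ hj, neg_zero]
  · intro j hj
    exact hlj' _ hj
  · rw [map_neg, hb2]
    exact neg_ne_zero.2 hb0
  · rw [J.η_D_succ, hηkj (h.t + 1 + 1) (by omega), map_zero, zero_add]
    exact hηk0
  · intro j hj
    obtain ⟨i, rfl⟩ : ∃ i, j = i + 1 := ⟨j - 1, by omega⟩
    rw [J.η_D_succ, hηkj (i + 1) (by omega), map_zero, zero_add, hηkj i (by omega)]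
  · intro j hj
    exact hηkj _ (by omega)
  · intro j hj
    rw [map_neg, h.ηz _ (by omega), neg_zero]
  · intro j hj
    exact hηlj _ (by omega)

theorem ldata_neg {J : JetDer F} {c : ℤ} {s : ℕ} (h : LData J c s) (hc : c ≤ -2) : False := by
  induction s using Nat.strong_induction_on generalizing c with
  | _ s ih =>
    obtain ⟨s', rfl, ⟨h'⟩⟩ := lstep h ⟨by omega, by omega, by omega, by omega, by omega⟩
    exact ih s' (by omega) h' (by omega)

theorem ldata_pos {J : JetDer F} (p : ℕ) {s : ℕ} (h : LData J (2 * p + 3) s) : 2 * p ≤ s := by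
  induction p generalizing s with
  | zero => omega
  | succ p ih =>
    obtain ⟨s', rfl, ⟨h'⟩⟩ := lstep h
      ⟨by omega, by omega, by omega, by omega, by omega⟩
    have e : (2 * ((p + 1 : ℕ) : ℤ) + 3 - 2) = 2 * (p : ℤ) + 3 := by push_cast; ring
    rw [e] at h'
    have := ih h'
    omega

end FlatOrder
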